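import Pool.Agent.Helper31.BQ.Stmts

/-! Sheet BQ, row B1: up to `ε` the limit map is of the first Baire class. -/

set_option autoImplicit false

namespace Pool.Agent.Helper1.BQ

open Filter Topology Pool.Agent.Helper31.BQ

universe u

/-- greedy weights -/
noncomputable def pw (v : ℕ → ℝ) (k : ℕ) : ℝ := v k * ∏ i ∈ Finset.range k, (1 - v i)

theorem pw_sum (v : ℕ → ℝ) (N : ℕ) :
    ∑ k ∈ Finset.range N, pw v k = 1 - ∏ i ∈ Finset.range N, (1 - v i) := by
  induction N with
  | zero => simp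
  | succ N ih =>
    rw [Finset.sum_range_succ, ih, Finset.prod_range_succ]
    unfold pw
    ring

theorem pw_nonneg {v : ℕ → ℝ} (h0 : ∀ i, 0 ≤ v i) (h1 : ∀ i, v i ≤ 1) (k : ℕ) : 0 ≤ pw v k :=
  mul_nonneg (h0 k) (Finset.prod_nonneg fun i _ => by linarith [h1 i])

theorem pw_zero {v : ℕ → ℝ} {K k : ℕ} (hK : v K = 1) (h : K < k) : pw v k = 0 := by
  unfold pw
  rw [Finset.prod_eq_zero (Finset.mem_range.2 h) (by rw [hK]; ring), mul_zero]

/-- the cut off -/
noncomputable def ct (e t : ℝ) : ℝ := min 1 (max 0 (2 - t / e))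

theorem ct_cont (e : ℝ) : Continuous (ct e) := by
  unfold ct
  fun_prop

theorem ct_nonneg (e t : ℝ) : 0 ≤ ct e t := le_min zero_le_one (le_max_left _ _)

theorem ct_le (e t : ℝ) : ct e t ≤ 1 := min_le_left _ _

theorem ct_one {e t : ℝ} (he : 0 < e) (h : t ≤ e) : ct e t = 1 := by
  have h1 : t / e ≤ 1 := (div_le_one he).2 h
  unfold ct
  rw [max_eq_right (by linarith), min_eq_left (by linarith)]

theorem ct_pos {e t : ℝ} (he : 0 < e) (h : ct e t ≠ 0) : t ≤ 2 * e := by
  by_contra hc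
  apply h
  have h1 : 2 < t / e := by
    rw [lt_div_iff₀ he]
    linarith
  unfold ct
  rw [max_eq_left (by linarith), min_eq_right (by norm_num)]

theorem nq {E : Type u} [NormedAddCommGroup E] [NormedSpace ℝ E] {M : ℕ → Submodule ℝ E}
    (hM : Antitone M) (hP : PP E M) (y : E) :
    Tendsto (fun n => ‖(M n).mkQ y‖) atTop (𝓝 ‖y‖) := by
  rw [Metric.tendsto_atTop]
  intro ε hε
  obtain ⟨n, hn⟩ := hP.2.2.1 y (ε / 2) (by linarith)
  refine ⟨n, fun m hm => ?_⟩
  have h1 : ‖(M m).mkQ y‖ ≤ ‖y‖ := Submodule.Quotient.norm_mk_le (M m) y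
  have h2 : ‖y‖ - ε / 2 ≤ ‖(M m).mkQ y‖ := by
    refine le_of_forall_pos_le_add fun δ hδ => ?_
    obtain ⟨z, hz1, hz2⟩ := Submodule.Quotient.norm_mk_lt ((M m).mkQ y) hδ
    have h3 : y - z ∈ M m := by
      rw [← Submodule.Quotient.eq]
      exact hz1.symm
    exact (hn z (hM hm h3)).trans hz2.le
  rw [Real.dist_eq, abs_lt]
  constructor <;> linarith

theorem st_B1 : ST_B1.{u} := by
  intro E _ _ _ M hM hP f hf ε hε
  obtain ⟨x, hx⟩ := TopologicalSpace.exists_dense_seq E
  obtain ⟨e, he, hee⟩ : ∃ e : ℝ, 0 < e ∧ 2 * e = ε := ⟨ε / 2, by linarith, by ring⟩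
  have hd : ∀ (φ : XX hM) (k : ℕ), Tendsto (fun n => ‖(φ : ∀ n, E ⧸ M n) n - (M n).mkQ (x k)‖)
      atTop (𝓝 ‖f φ - x k‖) := by
    intro φ k
    have h1 := nq hM hP (f φ - x k)
    have h2 : Tendsto (fun n => ‖(M n).mkQ (f φ) - (φ : ∀ n, E ⧸ M n) n‖) atTop (𝓝 0) := hf φ
    have h3 : Tendsto (fun n => ‖(φ : ∀ n, E ⧸ M n) n - (M n).mkQ (x k)‖ -
        ‖(M n).mkQ (f φ - x k)‖) atTop (𝓝 0) := by
      refine squeeze_zero_norm (fun n => ?_) h2
      rw [Real.norm_eq_abs]
      refine (abs_norm_sub_norm_le _ _).trans (le_of_eq ?_)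
      rw [map_sub, ← norm_neg]
      congr 1
      abel
    have h4 := h3.add h1
    rw [zero_add] at h4
    refine h4.congr fun n => ?_
    ring
  obtain ⟨u, hu⟩ : ∃ u : ℕ → XX hM → ℕ → ℝ, u = fun n (φ : XX hM) k =>
    ct e ‖(φ : ∀ n, E ⧸ M n) n - (M n).mkQ (x k)‖ := ⟨_, rfl⟩
  obtain ⟨U, hU⟩ : ∃ U : XX hM → ℕ → ℝ, U = fun (φ : XX hM) k => ct e ‖f φ - x k‖ := ⟨_, rfl⟩
  have huc : ∀ n k, Continuous fun φ => u n φ k := by
    intro n k
    rw [hu]
    have h1 : Continuous fun φ : XX hM => (φ : ∀ n, E ⧸ M n) n :=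
      (continuous_apply n).comp continuous_subtype_val
    exact (ct_cont e).comp (h1.sub continuous_const).norm
  have hul : ∀ φ k, Tendsto (fun n => u n φ k) atTop (𝓝 (U φ k)) := by
    intro φ k
    rw [hu, hU]
    exact ((ct_cont e).tendsto _).comp (hd φ k)
  have key : ∀ φ : XX hM, ∃ y : E,
      Tendsto (fun n => ∑ k ∈ Finset.range n, pw (u n φ) k • x k) atTop (𝓝 y) ∧
      ‖y - f φ‖ ≤ ε := by
    intro φ
    obtain ⟨K, hK⟩ : ∃ K, ‖f φ - x K‖ < e := by
      obtain ⟨K, hK⟩ := hx.exists_dist_lt (f φ) he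
      exact ⟨K, by rwa [dist_eq_norm] at hK⟩
    have hUK : U φ K = 1 := by
      rw [hU]
      exact ct_one he hK.le
    have hev : ∀ᶠ n in atTop, u n φ K = 1 := by
      filter_upwards [(hd φ K).eventually (gt_mem_nhds hK)] with n hn
      rw [hu]
      exact ct_one he (le_of_lt hn)
    refine ⟨∑ k ∈ Finset.range (K + 1), pw (U φ) k • x k, ?_, ?_⟩
    · have h1 : Tendsto (fun n => ∑ k ∈ Finset.range (K + 1), pw (u n φ) k • x k) atTop
          (𝓝 (∑ k ∈ Finset.range (K + 1), pw (U φ) k • x k)) := by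
        refine tendsto_finsetSum _ fun k _ => Tendsto.smul_const ?_ (x k)
        unfold pw
        exact (hul φ k).mul (tendsto_finsetProd _ fun i _ => (hul φ i).const_sub 1)
      refine h1.congr' ?_
      filter_upwards [hev, eventually_ge_atTop (K + 1)] with n hn hn2
      refine Finset.sum_subset (Finset.range_mono hn2) fun k _ hk => ?_
      have hk2 : K < k := by
        rw [Finset.mem_range] at hk
        omega
      rw [pw_zero hn hk2, zero_smul]
    · have hs : ∑ k ∈ Finset.range (K + 1), pw (U φ) k = 1 := by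
        rw [pw_sum, Finset.prod_eq_zero (Finset.mem_range.2 (Nat.lt_succ_self K))
          (by rw [hUK]; ring), sub_zero]
      have e1 : (∑ k ∈ Finset.range (K + 1), pw (U φ) k • x k) - f φ =
          ∑ k ∈ Finset.range (K + 1), pw (U φ) k • (x k - f φ) := by
        simp only [smul_sub]
        rw [Finset.sum_sub_distrib, ← Finset.sum_smul, hs, one_smul]
      rw [e1]
      have hp : ∀ k, 0 ≤ pw (U φ) k := by
        intro k
        refine pw_nonneg (fun i => ?_) (fun i => ?_) k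
        · rw [hU]
          exact ct_nonneg _ _
        · rw [hU]
          exact ct_le _ _
      calc ‖∑ k ∈ Finset.range (K + 1), pw (U φ) k • (x k - f φ)‖
          ≤ ∑ k ∈ Finset.range (K + 1), ‖pw (U φ) k • (x k - f φ)‖ := norm_sum_le _ _
        _ ≤ ∑ k ∈ Finset.range (K + 1), pw (U φ) k * ε := by
          refine Finset.sum_le_sum fun k _ => ?_
          rw [norm_smul, Real.norm_eq_abs, abs_of_nonneg (hp k)]
          by_cases h : U φ k = 0
          · have h2 : pw (U φ) k = 0 := by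
              unfold pw
              rw [h, zero_mul]
            rw [h2, zero_mul, zero_mul]
          · refine mul_le_mul_of_nonneg_left ?_ (hp k)
            rw [hU] at h
            rw [norm_sub_rev, ← hee]
            exact ct_pos he h
        _ = ε := by rw [← Finset.sum_mul, hs, one_mul]
  choose g hg1 hg2 using key
  refine ⟨g, ⟨fun n φ => ∑ k ∈ Finset.range n, pw (u n φ) k • x k, fun n => ?_, hg1⟩, hg2⟩
  refine continuous_finsetSum _ fun k _ => Continuous.smul ?_ continuous_const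
  unfold pw
  exact (huc n k).mul (continuous_finsetProd _ fun i _ => continuous_const.sub (huc n i))

end Pool.Agent.Helper1.BQ
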